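import Pool.Agent.Helper75.KT.AlgDefs

/-!
# The twisted matrix function algebras (piece L5b of MP_0ce5f1_an)
-/

set_option autoImplicit false
set_option linter.unusedSectionVars false

namespace Pool.Agent.Helper75.KT

open Matrix Filter Topology CPd
open scoped Kronecker ComplexOrder Matrix.Norms.L2Operator

/-- a unit vector spanning the fibre of `ee j` at `x` -/
noncomputable def UU (j : ℕ) (x : XX) : RR j → ℂ := (exists_vec j x).choose

theorem UU_mul (j : ℕ) (x : XX) (r s : RR j) : ee j r s x = UU j x r * star (UU j x s) :=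
  (exists_vec j x).choose_spec.1 r s

theorem UU_norm (j : ℕ) (x : XX) : ∑ r, UU j x r * star (UU j x r) = 1 :=
  (exists_vec j x).choose_spec.2

theorem UU_cont_of_eq {j j' : ℕ} (h : j = j') (r : RR j) (s : RR j') :
    Continuous fun x => UU j x r * star (UU j' x s) := by
  subst h
  have : (fun x => UU j x r * star (UU j x s)) = fun x => ee j r s x := by
    funext x; rw [UU_mul]
  rw [this]
  exact (ee j r s).continuous

theorem UU_abs_le (j : ℕ) (x : XX) (r : RR j) : ‖UU j x r‖ ≤ 1 := by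
  have h := UU_norm j x
  have h2 : ∑ r, (‖UU j x r‖ ^ 2 : ℝ) = 1 := by
    have : ((∑ r, (‖UU j x r‖ ^ 2 : ℝ) : ℝ) : ℂ) = 1 := by
      rw [← h]
      push_cast
      refine Finset.sum_congr rfl fun r _ => ?_
      rw [← Complex.mul_conj']
      rfl
    exact_mod_cast this
  have h3 : ‖UU j x r‖ ^ 2 ≤ 1 := by
    rw [← h2]
    exact Finset.single_le_sum (f := fun r => (‖UU j x r‖ ^ 2 : ℝ)) (fun r _ => by positivity)
      (Finset.mem_univ r)
  have h4 : 0 ≤ ‖UU j x r‖ := norm_nonneg _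
  nlinarith

/-- the key multiplicativity identity -/
theorem tw_mul_aux (i : ℕ) (A B : Matrix (Fin (2 ^ i)) (Fin (2 ^ i)) ℂ) (x : XX)
    (k m : Fin (2 ^ i)) (u v : ℂ) :
    (A * B) k m * (u * star v) = ∑ l : Fin (2 ^ i), ∑ t : RR (Nat.size l),
      (A k l * (u * star (UU (Nat.size l) x t))) * (B l m * (UU (Nat.size l) x t * star v)) := by
  rw [Matrix.mul_apply, Finset.sum_mul]
  refine Finset.sum_congr rfl fun l _ => ?_
  have h := UU_norm (Nat.size l) x
  calc A k l * B l m * (u * star v)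
      = A k l * B l m * (u * star v) * ∑ t, UU (Nat.size l) x t * star (UU (Nat.size l) x t) := by
        rw [h, mul_one]
    _ = _ := by
        rw [Finset.mul_sum]
        exact Finset.sum_congr rfl fun t _ => by ring

/-- twisted-continuous matrix valued functions: `F x k l * U_k(x) r * conj (U_l(x) s)` is
continuous for all `k l r s` -/
noncomputable def Tw (i : ℕ) : StarSubalgebra ℂ (XX → Matrix (Fin (2 ^ i)) (Fin (2 ^ i)) ℂ) where
  carrier := {F | ∀ (k l : Fin (2 ^ i)) (r : RR (Nat.size k)) (s : RR (Nat.size l)),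
      Continuous fun x => F x k l * (UU (Nat.size k) x r * star (UU (Nat.size l) x s))}
  mul_mem' := by
    intro F G hF hG k m r s
    have e : (fun x => (F * G) x k m * (UU (Nat.size k) x r * star (UU (Nat.size m) x s)))
        = fun x => ∑ l : Fin (2 ^ i), ∑ t : RR (Nat.size l),
          (F x k l * (UU (Nat.size k) x r * star (UU (Nat.size l) x t)))
          * (G x l m * (UU (Nat.size l) x t * star (UU (Nat.size m) x s))) := by
      funext x
      exact tw_mul_aux i (F x) (G x) x k m _ _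
    rw [e]
    exact continuous_finsetSum _ fun l _ => continuous_finsetSum _ fun t _ =>
      (hF k l r t).mul (hG l m t s)
  add_mem' := by
    intro F G hF hG k l r s
    have e : (fun x => (F + G) x k l * (UU (Nat.size k) x r * star (UU (Nat.size l) x s)))
        = fun x => F x k l * (UU (Nat.size k) x r * star (UU (Nat.size l) x s))
          + G x k l * (UU (Nat.size k) x r * star (UU (Nat.size l) x s)) := by
      funext x
      simp only [Pi.add_apply, Matrix.add_apply, add_mul]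
    rw [e]
    exact (hF k l r s).add (hG k l r s)
  algebraMap_mem' := by
    intro c k l r s
    by_cases h : k = l
    · subst h
      have e : (fun x => (algebraMap ℂ (XX → Matrix (Fin (2 ^ i)) (Fin (2 ^ i)) ℂ) c) x k k
          * (UU (Nat.size k) x r * star (UU (Nat.size k) x s)))
          = fun x => c * (UU (Nat.size k) x r * star (UU (Nat.size k) x s)) := by
        funext x
        simp [Pi.algebraMap_apply, Matrix.algebraMap_matrix_apply]
      rw [e]
      exact continuous_const.mul (UU_cont_of_eq rfl r s)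
    · have e : (fun x => (algebraMap ℂ (XX → Matrix (Fin (2 ^ i)) (Fin (2 ^ i)) ℂ) c) x k l
          * (UU (Nat.size k) x r * star (UU (Nat.size l) x s)))
          = fun x => 0 := by
        funext x
        simp [Pi.algebraMap_apply, Matrix.algebraMap_matrix_apply, h]
      rw [e]
      exact continuous_const
  star_mem' := by
    intro F hF k l r s
    have e : (fun x => (star F) x k l * (UU (Nat.size k) x r * star (UU (Nat.size l) x s)))
        = fun x => star (F x l k * (UU (Nat.size l) x s * star (UU (Nat.size k) x r))) := by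
      funext x
      simp only [Pi.star_apply, Matrix.star_apply, star_mul, star_star]
      ring
    rw [e]
    exact (hF l k s r).star

theorem mem_Tw (i : ℕ) (F : XX → Matrix (Fin (2 ^ i)) (Fin (2 ^ i)) ℂ) : F ∈ Tw i ↔
    ∀ (k l : Fin (2 ^ i)) (r : RR (Nat.size k)) (s : RR (Nat.size l)),
      Continuous fun x => F x k l * (UU (Nat.size k) x r * star (UU (Nat.size l) x s)) := Iff.rfl

/-- the honest matrix of continuous functions attached to a twisted-continuous function -/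
noncomputable def TwPsi (i : ℕ) : Tw i →⋆ₙₐ[ℂ] Matrix (KK i) (KK i) C(XX, ℂ) where
  toFun F := fun a b => ⟨fun x => F.1 x a.1 b.1 *
    (UU (Nat.size a.1) x a.2 * star (UU (Nat.size b.1) x b.2)), F.2 a.1 b.1 a.2 b.2⟩
  map_smul' := by
    intro c F
    ext a b x
    simp [mul_assoc]
  map_zero' := by
    ext a b x
    simp
  map_add' := by
    intro F G
    ext a b x
    simp [add_mul]
  map_mul' := by
    intro F G
    ext a b x
    simp only [Matrix.mul_apply, ContinuousMap.coe_mk, ContinuousMap.coe_sum, Finset.sum_apply,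
      ContinuousMap.mul_apply]
    rw [Fintype.sum_sigma]
    exact tw_mul_aux i (F.1 x) (G.1 x) x a.1 b.1 _ _
  map_star' := by
    intro F
    ext a b x
    simp only [Matrix.star_apply, ContinuousMap.star_apply, ContinuousMap.coe_mk,
      StarMemClass.coe_star, Pi.star_apply, star_mul, star_star]
    ring

theorem TwPsi_apply (i : ℕ) (F : Tw i) (a b : KK i) (x : XX) : TwPsi i F a b x
    = F.1 x a.1 b.1 * (UU (Nat.size a.1) x a.2 * star (UU (Nat.size b.1) x b.2)) := rfl

/-- recovering `F` from its honest matrix -/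
theorem Tw_recover (i : ℕ) (F : Tw i) (x : XX) (k l : Fin (2 ^ i)) :
    F.1 x k l = ∑ r : RR (Nat.size k), ∑ s : RR (Nat.size l),
      star (UU (Nat.size k) x r) * TwPsi i F ⟨k, r⟩ ⟨l, s⟩ x * UU (Nat.size l) x s := by
  have e : ∀ (r : RR (Nat.size k)) (s : RR (Nat.size l)),
      star (UU (Nat.size k) x r) * TwPsi i F ⟨k, r⟩ ⟨l, s⟩ x * UU (Nat.size l) x s
      = F.1 x k l * ((UU (Nat.size k) x r * star (UU (Nat.size k) x r))
        * (UU (Nat.size l) x s * star (UU (Nat.size l) x s))) := by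
    intro r s
    rw [TwPsi_apply]
    ring
  simp only [e]
  rw [← Finset.sum_congr rfl fun r _ => Finset.mul_sum _ _ _, ← Finset.mul_sum,
    ← Finset.sum_mul_sum, UU_norm, UU_norm, one_mul, mul_one]

theorem TwPsi_inj (i : ℕ) : Function.Injective (TwPsi i) := by
  intro F G h
  apply Subtype.ext
  funext x
  ext k l
  rw [Tw_recover i F x k l, Tw_recover i G x k l, h]

theorem TwPsi_one (i : ℕ) :
    TwPsi i 1 = Matrix.blockDiagonal' fun k : Fin (2 ^ i) => ee (Nat.size k) := by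
  ext ⟨k, r⟩ ⟨l, s⟩ x
  rw [TwPsi_apply]
  by_cases h : k = l
  · subst h
    rw [Matrix.blockDiagonal'_apply_eq, UU_mul]
    simp
  · rw [Matrix.blockDiagonal'_apply_ne _ _ _ h]
    simp [h]

theorem TwPsi_range (i : ℕ) (M : Matrix (KK i) (KK i) C(XX, ℂ))
    (hM : TwPsi i 1 * M * TwPsi i 1 = M) : ∃ F, TwPsi i F = M := by
  let F : XX → Matrix (Fin (2 ^ i)) (Fin (2 ^ i)) ℂ := fun x => Matrix.of fun k l =>
    ∑ r : RR (Nat.size k), ∑ s : RR (Nat.size l),
      star (UU (Nat.size k) x r) * M ⟨k, r⟩ ⟨l, s⟩ x * UU (Nat.size l) x s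
  have q1 : ∀ (k : Fin (2 ^ i)) (r : RR (Nat.size k)) (c : KK i) (x : XX)
      (g : KK i → ℂ), ∑ c : KK i, TwPsi i 1 ⟨k, r⟩ c x * g c
        = ∑ t : RR (Nat.size k), UU (Nat.size k) x r * star (UU (Nat.size k) x t) * g ⟨k, t⟩ := by
    intro k r c x g
    rw [Fintype.sum_sigma, Finset.sum_eq_single k]
    · refine Finset.sum_congr rfl fun t _ => ?_
      rw [TwPsi_apply]
      simp
    · intro l _ hl
      refine Finset.sum_eq_zero fun t _ => ?_
      rw [TwPsi_apply]
      have : (1 : Matrix (Fin (2 ^ i)) (Fin (2 ^ i)) ℂ) k l = 0 := Matrix.one_apply_ne (Ne.symm hl)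
      simp [this]
    · intro h; exact absurd (Finset.mem_univ _) h
  have q2 : ∀ (l : Fin (2 ^ i)) (s : RR (Nat.size l)) (x : XX)
      (g : KK i → ℂ), ∑ c : KK i, g c * TwPsi i 1 c ⟨l, s⟩ x
        = ∑ t : RR (Nat.size l), g ⟨l, t⟩ * (UU (Nat.size l) x t * star (UU (Nat.size l) x s)) := by
    intro l s x g
    rw [Fintype.sum_sigma, Finset.sum_eq_single l]
    · refine Finset.sum_congr rfl fun t _ => ?_
      rw [TwPsi_apply]
      simp
    · intro k _ hk
      refine Finset.sum_eq_zero fun t _ => ?_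
      rw [TwPsi_apply]
      have : (1 : Matrix (Fin (2 ^ i)) (Fin (2 ^ i)) ℂ) k l = 0 := Matrix.one_apply_ne hk
      simp [this]
    · intro h; exact absurd (Finset.mem_univ _) h
  have key : ∀ (k l : Fin (2 ^ i)) (r : RR (Nat.size k)) (s : RR (Nat.size l)) (x : XX),
      F x k l * (UU (Nat.size k) x r * star (UU (Nat.size l) x s)) = M ⟨k, r⟩ ⟨l, s⟩ x := by
    intro k l r s x
    have h1 : M ⟨k, r⟩ ⟨l, s⟩ x = (TwPsi i 1 * M * TwPsi i 1) ⟨k, r⟩ ⟨l, s⟩ x := by rw [hM]
    rw [h1]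
    simp only [Matrix.mul_apply, ContinuousMap.coe_sum, Finset.sum_apply,
      ContinuousMap.mul_apply]
    rw [q2 l s x (fun c => ∑ c' : KK i, TwPsi i 1 ⟨k, r⟩ c' x * M c' c x)]
    have h2 : ∀ t : RR (Nat.size l), ∑ c' : KK i, TwPsi i 1 ⟨k, r⟩ c' x * M c' ⟨l, t⟩ x
        = ∑ t' : RR (Nat.size k), UU (Nat.size k) x r * star (UU (Nat.size k) x t')
          * M ⟨k, t'⟩ ⟨l, t⟩ x := fun t => q1 k r ⟨k, r⟩ x (fun c' => M c' ⟨l, t⟩ x)
    simp only [h2]
    show (∑ r' : RR (Nat.size k), ∑ s' : RR (Nat.size l),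
      star (UU (Nat.size k) x r') * M ⟨k, r'⟩ ⟨l, s'⟩ x * UU (Nat.size l) x s')
      * (UU (Nat.size k) x r * star (UU (Nat.size l) x s)) = _
    rw [Finset.sum_comm, Finset.sum_mul]
    refine Finset.sum_congr rfl fun t _ => ?_
    rw [Finset.sum_mul, Finset.sum_mul]
    exact Finset.sum_congr rfl fun t' _ => by ring
  have hF : F ∈ Tw i := by
    intro k l r s
    have e : (fun x => F x k l * (UU (Nat.size k) x r * star (UU (Nat.size l) x s)))
        = fun x => M ⟨k, r⟩ ⟨l, s⟩ x := by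
      funext x; exact key k l r s x
    rw [e]
    exact (M ⟨k, r⟩ ⟨l, s⟩).continuous
  refine ⟨⟨F, hF⟩, ?_⟩
  ext ⟨k, r⟩ ⟨l, s⟩ x
  rw [TwPsi_apply]
  exact key k l r s x

theorem Tw_bdd (i : ℕ) (F : Tw i) : ∃ C : ℝ, ∀ x k l, ‖F.1 x k l‖ ≤ C := by
  refine ⟨∑ a : KK i, ∑ b : KK i, ‖TwPsi i F a b‖, ?_⟩
  intro x k l
  rw [Tw_recover i F x k l]
  have h1 : ‖∑ r : RR (Nat.size k), ∑ s : RR (Nat.size l),
      star (UU (Nat.size k) x r) * TwPsi i F ⟨k, r⟩ ⟨l, s⟩ x * UU (Nat.size l) x s‖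
      ≤ ∑ r : RR (Nat.size k), ∑ s : RR (Nat.size l), ‖TwPsi i F ⟨k, r⟩ ⟨l, s⟩‖ := by
    refine (norm_sum_le _ _).trans (Finset.sum_le_sum fun r _ => ?_)
    refine (norm_sum_le _ _).trans (Finset.sum_le_sum fun s _ => ?_)
    rw [norm_mul, norm_mul, norm_star]
    have a1 := UU_abs_le (Nat.size k) x r
    have a2 := UU_abs_le (Nat.size l) x s
    have a3 : ‖TwPsi i F ⟨k, r⟩ ⟨l, s⟩ x‖ ≤ ‖TwPsi i F ⟨k, r⟩ ⟨l, s⟩‖ :=
      ContinuousMap.norm_coe_le_norm _ x
    have a4 : 0 ≤ ‖TwPsi i F ⟨k, r⟩ ⟨l, s⟩ x‖ := norm_nonneg _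
    calc ‖UU (Nat.size k) x r‖ * ‖TwPsi i F ⟨k, r⟩ ⟨l, s⟩ x‖ * ‖UU (Nat.size l) x s‖
        ≤ 1 * ‖TwPsi i F ⟨k, r⟩ ⟨l, s⟩ x‖ * 1 := by
          gcongr
      _ ≤ _ := by simpa using a3
  refine h1.trans ?_
  have h2 : ∀ k l : Fin (2 ^ i), ∑ r : RR (Nat.size k), ∑ s : RR (Nat.size l),
      ‖TwPsi i F ⟨k, r⟩ ⟨l, s⟩‖ ≤ ∑ a : KK i, ∑ b : KK i, ‖TwPsi i F a b‖ := by
    intro k l
    rw [Fintype.sum_sigma]
    refine le_trans ?_ (Finset.single_le_sum (f := fun k' : Fin (2 ^ i) =>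
      ∑ r : RR (Nat.size k'), ∑ b : KK i, ‖TwPsi i F ⟨k', r⟩ b‖)
      (fun k' _ => Finset.sum_nonneg fun r _ => Finset.sum_nonneg fun b _ => norm_nonneg _)
      (Finset.mem_univ k))
    refine Finset.sum_le_sum fun r _ => ?_
    rw [Fintype.sum_sigma]
    exact Finset.single_le_sum (f := fun l' : Fin (2 ^ i) =>
      ∑ s : RR (Nat.size l'), ‖TwPsi i F ⟨k, r⟩ ⟨l', s⟩‖)
      (fun l' _ => Finset.sum_nonneg fun s _ => norm_nonneg _) (Finset.mem_univ l)
  exact h2 k l

theorem Tw_dense (i : ℕ) (S : Set XX) (hS : Dense S) (F : Tw i) (h : ∀ x ∈ S, F.1 x = 0) :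
    F = 0 := by
  apply TwPsi_inj i
  rw [map_zero]
  ext a b x
  have e : (TwPsi i F a b : XX → ℂ) = fun _ => 0 := by
    refine Continuous.ext_on hS (TwPsi i F a b).continuous continuous_const ?_
    intro x hx
    show TwPsi i F a b x = 0
    rw [TwPsi_apply, h x hx]
    simp
  simpa using congrFun e x

theorem TwPsi_norm_entry (i : ℕ) (S : Set XX) (hS : Dense S) (F : Tw i) (C : ℝ)
    (h : ∀ x ∈ S, ∀ k l, ‖F.1 x k l‖ ≤ C) (x : XX) (a b : KK i) : ‖TwPsi i F a b x‖ ≤ C := by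
  have hc : IsClosed {x : XX | ‖TwPsi i F a b x‖ ≤ C} :=
    isClosed_le (TwPsi i F a b).continuous.norm continuous_const
  have hs : S ⊆ {x : XX | ‖TwPsi i F a b x‖ ≤ C} := by
    intro x hx
    show ‖TwPsi i F a b x‖ ≤ C
    rw [TwPsi_apply, norm_mul, norm_mul, norm_star]
    have a0 := h x hx a.1 b.1
    have a1 := UU_abs_le (Nat.size a.1) x a.2
    have a2 := UU_abs_le (Nat.size b.1) x b.2
    have a4 : 0 ≤ ‖F.1 x a.1 b.1‖ := norm_nonneg _
    calc ‖F.1 x a.1 b.1‖ * (‖UU (Nat.size a.1) x a.2‖ * ‖UU (Nat.size b.1) x b.2‖)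
        ≤ ‖F.1 x a.1 b.1‖ * (1 * 1) := by gcongr
      _ ≤ C := by simpa using a0
  have := hc.closure_subset_iff.2 hs
  rw [hS.closure_eq] at this
  exact this (Set.mem_univ x)

/-- splitting of the index set at the next stage -/
def splitE (i : ℕ) : Fin (2 ^ (i + 1)) ≃ Fin (2 ^ i) ⊕ Fin (2 ^ i) where
  toFun k := if h : k.1 < 2 ^ i then Sum.inl ⟨k.1, h⟩
    else Sum.inr ⟨k.1 - 2 ^ i, by have := k.2; have e := pow_succ 2 i; omega⟩
  invFun s := match s with
    | Sum.inl k => ⟨k.1, by have := k.2; have e := pow_succ 2 i; omega⟩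
    | Sum.inr k => ⟨2 ^ i + k.1, by have := k.2; have e := pow_succ 2 i; omega⟩
  left_inv := by
    intro k
    by_cases h : k.1 < 2 ^ i
    · simp [h]
    · simp only [h, dite_false]
      apply Fin.ext
      simp only
      omega
  right_inv := by
    intro s
    rcases s with k | k
    · simp
    · simp

theorem splitE_of_lt (i : ℕ) (k : Fin (2 ^ (i + 1))) (h : k.1 < 2 ^ i) :
    splitE i k = Sum.inl ⟨k.1, h⟩ := by
  simp [splitE, h]

theorem splitE_of_ge (i : ℕ) (k : Fin (2 ^ (i + 1))) (h : 2 ^ i ≤ k.1) :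
    splitE i k = Sum.inr ⟨k.1 - 2 ^ i, by have := k.2; have e := pow_succ 2 i; omega⟩ := by
  simp [splitE, Nat.not_lt.2 h]

/-- the underlying matrix function of `up` -/
def upF (i : ℕ) (y : XX) (F : XX → Matrix (Fin (2 ^ i)) (Fin (2 ^ i)) ℂ) :
    XX → Matrix (Fin (2 ^ (i + 1))) (Fin (2 ^ (i + 1))) ℂ := fun x =>
  (Matrix.fromBlocks (F x) 0 0 (F y)).submatrix (splitE i) (splitE i)

theorem upF_apply (i : ℕ) (y : XX) (F : XX → Matrix (Fin (2 ^ i)) (Fin (2 ^ i)) ℂ) (x : XX)
    (k l : Fin (2 ^ (i + 1))) :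
    upF i y F x k l =
      if h : k.1 < 2 ^ i ∧ l.1 < 2 ^ i then F x ⟨k.1, h.1⟩ ⟨l.1, h.2⟩
      else if 2 ^ i ≤ k.1 ∧ 2 ^ i ≤ l.1 then
        F y ⟨k.1 - 2 ^ i, by have := k.2; have e := pow_succ 2 i; omega⟩
          ⟨l.1 - 2 ^ i, by have := l.2; have e := pow_succ 2 i; omega⟩
      else 0 := by
  unfold upF
  rw [Matrix.submatrix_apply]
  by_cases hk : k.1 < 2 ^ i
  · rw [splitE_of_lt i k hk]
    by_cases hl : l.1 < 2 ^ i
    · rw [splitE_of_lt i l hl, dif_pos ⟨hk, hl⟩]
      rfl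
    · rw [splitE_of_ge i l (Nat.not_lt.1 hl), dif_neg (fun h => hl h.2),
        if_neg (fun h => absurd hk (Nat.not_lt.2 h.1))]
      rfl
  · rw [splitE_of_ge i k (Nat.not_lt.1 hk)]
    by_cases hl : l.1 < 2 ^ i
    · rw [splitE_of_lt i l hl, dif_neg (fun h => hk h.1),
        if_neg (fun h => absurd hl (Nat.not_lt.2 h.2))]
      rfl
    · rw [splitE_of_ge i l (Nat.not_lt.1 hl), dif_neg (fun h => hl h.2),
        if_pos ⟨Nat.not_lt.1 hk, Nat.not_lt.1 hl⟩]
      rfl

theorem size_second_half (i k : ℕ) (h1 : 2 ^ i ≤ k) (h2 : k < 2 ^ (i + 1)) :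
    Nat.size k = i + 1 := by
  apply le_antisymm
  · exact Nat.size_le.2 h2
  · exact Nat.lt_size.2 h1

theorem upF_mem (i : ℕ) (y : XX) (F : XX → Matrix (Fin (2 ^ i)) (Fin (2 ^ i)) ℂ)
    (hF : F ∈ Tw i) : upF i y F ∈ Tw (i + 1) := by
  intro k l r s
  by_cases h : k.1 < 2 ^ i ∧ l.1 < 2 ^ i
  · have e : (fun x => upF i y F x k l * (UU (Nat.size k) x r * star (UU (Nat.size l) x s)))
        = fun x => F x ⟨k.1, h.1⟩ ⟨l.1, h.2⟩ *
          (UU (Nat.size k) x r * star (UU (Nat.size l) x s)) := by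
      funext x
      rw [upF_apply, dif_pos h]
    rw [e]
    exact hF ⟨k.1, h.1⟩ ⟨l.1, h.2⟩ r s
  · by_cases h' : 2 ^ i ≤ k.1 ∧ 2 ^ i ≤ l.1
    · have e : (fun x => upF i y F x k l * (UU (Nat.size k) x r * star (UU (Nat.size l) x s)))
          = fun x => F y ⟨k.1 - 2 ^ i, by have := k.2; have e := pow_succ 2 i; omega⟩
            ⟨l.1 - 2 ^ i, by have := l.2; have e := pow_succ 2 i; omega⟩ *
            (UU (Nat.size k) x r * star (UU (Nat.size l) x s)) := by
        funext x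
        rw [upF_apply, dif_neg h, if_pos h']
      rw [e]
      refine continuous_const.mul (UU_cont_of_eq ?_ r s)
      rw [size_second_half i k.1 h'.1 k.2, size_second_half i l.1 h'.2 l.2]
    · have e : (fun x => upF i y F x k l * (UU (Nat.size k) x r * star (UU (Nat.size l) x s)))
          = fun x => 0 := by
        funext x
        rw [upF_apply, dif_neg h, if_neg h', zero_mul]
      rw [e]
      exact continuous_const

/-- the connecting map `F ↦ F ⊕ F(y)` -/
noncomputable def up (i : ℕ) (y : XX) : Tw i →⋆ₐ[ℂ] Tw (i + 1) where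
  toFun F := ⟨upF i y F.1, upF_mem i y F.1 F.2⟩
  map_one' := by
    apply Subtype.ext
    funext x
    show (Matrix.fromBlocks (1 : Matrix (Fin (2 ^ i)) (Fin (2 ^ i)) ℂ) 0 0 1).submatrix
      (splitE i) (splitE i) = 1
    rw [Matrix.fromBlocks_one, Matrix.submatrix_one_equiv]
  map_mul' := by
    intro F G
    apply Subtype.ext
    funext x
    show (Matrix.fromBlocks (F.1 x * G.1 x) 0 0 (F.1 y * G.1 y)).submatrix
      (splitE i) (splitE i) = (Matrix.fromBlocks (F.1 x) 0 0 (F.1 y)).submatrix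
      (splitE i) (splitE i) * (Matrix.fromBlocks (G.1 x) 0 0 (G.1 y)).submatrix
      (splitE i) (splitE i)
    rw [Matrix.submatrix_mul_equiv, Matrix.fromBlocks_multiply]
    simp
  map_zero' := by
    apply Subtype.ext
    funext x
    show (Matrix.fromBlocks (0 : Matrix (Fin (2 ^ i)) (Fin (2 ^ i)) ℂ) 0 0 0).submatrix
      (splitE i) (splitE i) = 0
    rw [Matrix.fromBlocks_zero, Matrix.submatrix_zero]
    rfl
  map_add' := by
    intro F G
    apply Subtype.ext
    funext x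
    show (Matrix.fromBlocks (F.1 x + G.1 x) 0 0 (F.1 y + G.1 y)).submatrix
      (splitE i) (splitE i) = (Matrix.fromBlocks (F.1 x) 0 0 (F.1 y)).submatrix
      (splitE i) (splitE i) + (Matrix.fromBlocks (G.1 x) 0 0 (G.1 y)).submatrix
      (splitE i) (splitE i)
    have e : Matrix.fromBlocks (F.1 x + G.1 x) 0 0 (F.1 y + G.1 y)
        = Matrix.fromBlocks (F.1 x) 0 0 (F.1 y) + Matrix.fromBlocks (G.1 x) 0 0 (G.1 y) := by
      rw [Matrix.fromBlocks_add]
      simp
    rw [e]
    rfl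
  commutes' := by
    intro c
    apply Subtype.ext
    funext x
    show (Matrix.fromBlocks (algebraMap ℂ (Matrix (Fin (2 ^ i)) (Fin (2 ^ i)) ℂ) c) 0 0
      (algebraMap ℂ (Matrix (Fin (2 ^ i)) (Fin (2 ^ i)) ℂ) c)).submatrix
      (splitE i) (splitE i) = algebraMap ℂ (Matrix _ _ ℂ) c
    rw [Algebra.algebraMap_eq_smul_one, Algebra.algebraMap_eq_smul_one]
    have e : Matrix.fromBlocks (c • (1 : Matrix (Fin (2 ^ i)) (Fin (2 ^ i)) ℂ)) 0 0
        (c • (1 : Matrix (Fin (2 ^ i)) (Fin (2 ^ i)) ℂ))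
        = c • (1 : Matrix (Fin (2 ^ i) ⊕ Fin (2 ^ i)) (Fin (2 ^ i) ⊕ Fin (2 ^ i)) ℂ) := by
      rw [← Matrix.fromBlocks_one, Matrix.fromBlocks_smul]
      simp
    rw [e, Matrix.submatrix_smul]
    simp only [Pi.smul_apply]
    rw [Matrix.submatrix_one_equiv]
  map_star' := by
    intro F
    apply Subtype.ext
    funext x
    show (Matrix.fromBlocks (star (F.1 x)) 0 0 (star (F.1 y))).submatrix
      (splitE i) (splitE i) = star ((Matrix.fromBlocks (F.1 x) 0 0 (F.1 y)).submatrix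
      (splitE i) (splitE i))
    rw [Matrix.star_eq_conjTranspose, Matrix.star_eq_conjTranspose, Matrix.star_eq_conjTranspose,
      Matrix.conjTranspose_submatrix, Matrix.fromBlocks_conjTranspose]
    simp

theorem up_apply (i : ℕ) (y : XX) (F : Tw i) (x : XX) (k l : Fin (2 ^ (i + 1))) :
    (up i y F).1 x k l =
      if h : k.1 < 2 ^ i ∧ l.1 < 2 ^ i then F.1 x ⟨k.1, h.1⟩ ⟨l.1, h.2⟩
      else if 2 ^ i ≤ k.1 ∧ 2 ^ i ≤ l.1 then
        F.1 y ⟨k.1 - 2 ^ i, by have := k.2; have e := pow_succ 2 i; omega⟩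
          ⟨l.1 - 2 ^ i, by have := l.2; have e := pow_succ 2 i; omega⟩
      else 0 := upF_apply i y F.1 x k l

theorem fin_pow_zero_eq (k l : Fin (2 ^ 0)) : k = l := by
  apply Fin.ext
  have := k.2
  have := l.2
  simp only [pow_zero] at *
  omega

/-- scalar functions -/
noncomputable def scal : C(XX, ℂ) →⋆ₐ[ℂ] Tw 0 where
  toFun f := ⟨fun x => f x • (1 : Matrix (Fin (2 ^ 0)) (Fin (2 ^ 0)) ℂ), by
    intro k l r s
    have h : k = l := fin_pow_zero_eq k l
    subst h
    have e : (fun x => (f x • (1 : Matrix (Fin (2 ^ 0)) (Fin (2 ^ 0)) ℂ)) k k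
        * (UU (Nat.size k) x r * star (UU (Nat.size k) x s)))
        = fun x => f x * (UU (Nat.size k) x r * star (UU (Nat.size k) x s)) := by
      funext x
      simp
    rw [e]
    exact f.continuous.mul (UU_cont_of_eq rfl r s)⟩
  map_one' := by
    apply Subtype.ext
    funext x
    simp
  map_mul' := by
    intro f g
    apply Subtype.ext
    funext x
    simp [smul_smul, mul_comm]
  map_zero' := by
    apply Subtype.ext
    funext x
    simp
  map_add' := by
    intro f g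
    apply Subtype.ext
    funext x
    simp [add_smul]
  commutes' := by
    intro c
    apply Subtype.ext
    funext x
    show (algebraMap ℂ C(XX, ℂ) c) x • (1 : Matrix (Fin (2 ^ 0)) (Fin (2 ^ 0)) ℂ)
      = algebraMap ℂ (Matrix _ _ ℂ) c
    rw [Algebra.algebraMap_eq_smul_one (A := Matrix (Fin (2 ^ 0)) (Fin (2 ^ 0)) ℂ)]
    simp [Algebra.algebraMap_eq_smul_one]
  map_star' := by
    intro f
    apply Subtype.ext
    funext x
    show (star (f x)) • (1 : Matrix (Fin (2 ^ 0)) (Fin (2 ^ 0)) ℂ)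
      = star (f x • (1 : Matrix (Fin (2 ^ 0)) (Fin (2 ^ 0)) ℂ))
    rw [star_smul, star_one]

theorem scal_apply (f : C(XX, ℂ)) (x : XX) (k l : Fin (2 ^ 0)) : (scal f).1 x k l = f x := by
  have h : k = l := fin_pow_zero_eq k l
  subst h
  show (f x • (1 : Matrix (Fin (2 ^ 0)) (Fin (2 ^ 0)) ℂ)) k k = f x
  simp

end Pool.Agent.Helper75.KT
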